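import Mathlib
import Pool.Agent.ORG.Main
import Pool.Agent.HGP2.Main

set_option autoImplicit false

/-!
# Every one-relator group has the Haagerup property

Every one-relator group (torsion allowed) lies in one of the classes `C_k` of the project ORG:
groups obtained from subgroups of free products of a free group and copies of `ℤ/k` by directed unions
and extensions by `ℤ`.
-/

namespace Pool.Agent.Results.MP_34a894_al.OneRelatorHaagerup

/-- the Haagerup property: a metrically proper action by affine isometries on a real Hilbert
space -/
def HasHaagerup (G : Type) [Group G] : Prop :=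
  ∃ (E : Type) (_ : NormedAddCommGroup E) (_ : InnerProductSpace ℝ E) (_ : CompleteSpace E)
    (ρ : G →* (E ≃ᵃⁱ[ℝ] E)), ∀ B : Set E, Bornology.IsBounded B →
      {g : G | ((fun v => ρ g v) '' B ∩ B).Nonempty}.Finite

/-- **Every one-relator group `⟨x_1, ..., x_n | r⟩` has the Haagerup property**, and so has every
subgroup of it. -/
theorem result : ∀ (n : ℕ) (r : FreeGroup (Fin n)) (G : Type) [Group G]
    (f : G →* PresentedGroup ({r} : Set (FreeGroup (Fin n)))), Function.Injective f →
    HasHaagerup G := by
  intro n r G _ f hf
  have : Countable (PresentedGroup ({r} : Set (FreeGroup (Fin n)))) := Quotient.countable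
  have : Countable G := hf.countable
  obtain ⟨k, hk, h⟩ := ORG.mOR n r
  exact HGQ.p_GHA G (HGQ.Good.inj HGQ.mGKE f hf (HGQ.mGCY _ (ORG.mCYC k hk _ h)))

end Pool.Agent.Results.MP_34a894_al.OneRelatorHaagerup
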